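import Pool.Agent.H31.SW.TargetsL

/-! Row HU of the board swl_modules: the functions `hh`, `UU`, `psi`. -/

set_option autoImplicit false

open Complex Set

namespace Pool.Agent.H64.SWL

open Pool.Agent.H31.SW Pool.Agent.H29.DW

private theorem hu_re {a w : ℂ} (ha : ‖a‖ ≤ 1 / 10000) (hw : w ∈ Metric.ball (1 : ℂ) (1 / 50)) :
    0 < (w + a).re ∧ 0 < (w - a).re := by
  rw [Metric.mem_ball, dist_eq_norm] at hw
  have h1 := (abs_le.1 ((Complex.abs_re_le_norm a).trans ha))
  have h2 := (abs_lt.1 ((Complex.abs_re_le_norm (w - 1)).trans_lt hw))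
  rw [Complex.sub_re, Complex.one_re] at h2
  rw [Complex.add_re, Complex.sub_re]
  constructor <;> linarith [h1.1, h1.2, h2.1, h2.2]

private theorem hu_h {a w : ℂ} (ha0 : a ≠ 0) (ha : ‖a‖ ≤ 1 / 10000)
    (hw : w ∈ Metric.ball (1 : ℂ) (1 / 50)) :
    HasDerivAt (hh a) (-1 / (w ^ 2 - a ^ 2)) w := by
  obtain ⟨h1, h2⟩ := hu_re ha hw
  have e1 : w + a ≠ 0 := fun h => by rw [h] at h1; simp at h1
  have e2 : w - a ≠ 0 := fun h => by rw [h] at h2; simp at h2
  have d1 : HasDerivAt (fun w : ℂ => Complex.log (w + a)) (1 / (w + a)) w := by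
    have := ((hasDerivAt_id w).add_const a).clog (Or.inl h1)
    simpa using this
  have d2 : HasDerivAt (fun w : ℂ => Complex.log (w - a)) (1 / (w - a)) w := by
    have := ((hasDerivAt_id w).sub_const a).clog (Or.inl h2)
    simpa using this
  have d3 := (d1.sub d2).div_const (2 * a)
  have e3 : (1 / (w + a) - 1 / (w - a)) / (2 * a) = -1 / (w ^ 2 - a ^ 2) := by
    have e4 : w ^ 2 - a ^ 2 ≠ 0 := by
      have : w ^ 2 - a ^ 2 = (w + a) * (w - a) := by ring
      rw [this]
      exact mul_ne_zero e1 e2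
    field_simp
    ring
  rw [e3] at d3
  exact d3

private theorem hu_sq {z : ℂ} (h : ‖z - 1‖ < 1 / 50) : 0 < (z ^ 2).re := by
  have h1 := (abs_lt.1 ((Complex.abs_re_le_norm (z - 1)).trans_lt h))
  have h2 := (abs_lt.1 ((Complex.abs_im_le_norm (z - 1)).trans_lt h))
  rw [Complex.sub_re, Complex.one_re] at h1
  rw [Complex.sub_im, Complex.one_im] at h2
  rw [pow_two, Complex.mul_re]
  nlinarith [h1.1, h1.2, h2.1, h2.2]

private theorem hu_ofReal {z : ℂ} (h : z.im = 0) : z = (z.re : ℂ) := by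
  apply Complex.ext
  · simp
  · simp [h]

theorem pf_HU (hUD : W_UD) : W_HU := by
  obtain ⟨hUD, -, -⟩ := hUD
  intro a ha0 ha
  have ha' : ‖a‖ ≤ 1 / 100 := by linarith
  refine ⟨fun w hw => hu_h ha0 ha hw, fun η hη => ?_, fun r hr w hw hwr => ?_⟩
  · obtain ⟨h1, h2⟩ := hUD a η ha' hη
    have hη0 : η ≠ 0 := by
      rintro rfl
      rw [Metric.mem_ball, dist_eq_norm] at hη
      norm_num at hη
    have hU : UU a η ∈ Metric.ball (1 : ℂ) (1 / 50) := by
      rw [Metric.mem_ball, dist_eq_norm]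
      exact h2
    have hsl : 0 < (a ^ 2 + η⁻¹).re := by
      rw [← h1]
      exact hu_sq h2
    obtain ⟨U', hU'⟩ : ∃ U', HasDerivAt (UU a) U' η := by
      have d1 : HasDerivAt (fun η : ℂ => a ^ 2 + η⁻¹) (-(η ^ 2)⁻¹) η :=
        (hasDerivAt_inv hη0).const_add _
      have d2 := ((d1.clog (Or.inl hsl)).div_const 2).cexp
      exact ⟨_, d2⟩
    have d3 : HasDerivAt (hh a) (-1 / (UU a η ^ 2 - a ^ 2)) (UU a η) := hu_h ha0 ha hU
    have d4 := (d3.comp η hU').add ((hasDerivAt_id η).mul hU')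
    have e1 : -1 / (UU a η ^ 2 - a ^ 2) * U' + (1 * UU a η + id η * U') = UU a η := by
      rw [h1, add_sub_cancel_left, div_inv_eq_mul]
      simp only [id]
      ring
    rw [e1] at d4
    exact d4
  · cases r with
    | false =>
      refine ⟨?_, ?_, ?_⟩ <;> intro h <;> exact absurd h (by decide)
    | true =>
      have hai : a.im = 0 := hr rfl
      have hwi : w.im = 0 := hwr rfl
      obtain ⟨h1, h2⟩ := hu_re ha hw
      obtain ⟨h3, h4⟩ := hUD a w ha' hw
      have ea := hu_ofReal hai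
      have ew := hu_ofReal hwi
      have hlog : ∀ z : ℂ, z.im = 0 → 0 < z.re → (Complex.log z).im = 0 := by
        intro z hz hz'
        rw [hu_ofReal hz, ← Complex.ofReal_log hz'.le, Complex.ofReal_im]
      have rh : ∀ z : ℂ, z ∈ Metric.ball (1 : ℂ) (1 / 50) → z.im = 0 → (hh a z).im = 0 := by
        intro z hz hzi
        obtain ⟨h1, h2⟩ := hu_re ha hz
        have l1 : (Complex.log (z + a)).im = 0 := hlog _ (by simp [hai, hzi]) h1
        have l2 : (Complex.log (z - a)).im = 0 := hlog _ (by simp [hai, hzi]) h2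
        unfold hh
        rw [hu_ofReal l1, hu_ofReal l2, ea]
        have : (((Complex.log (z + (a.re : ℂ))).re : ℂ) - ((Complex.log (z - (a.re : ℂ))).re : ℂ)) /
            (2 * (a.re : ℂ)) = ((((Complex.log (z + (a.re : ℂ))).re -
              (Complex.log (z - (a.re : ℂ))).re) / (2 * a.re) : ℝ) : ℂ) := by
          push_cast
          rfl
        rw [this, Complex.ofReal_im]
      have r1 : (hh a w).im = 0 := rh w hw hwi
      have r2 : (UU a w).im = 0 := by
        have hs : 0 < (a ^ 2 + w⁻¹).re := by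
          rw [← h3]
          exact hu_sq h4
        have hi : (a ^ 2 + w⁻¹).im = 0 := by
          have : a ^ 2 + w⁻¹ = ((a.re ^ 2 + w.re⁻¹ : ℝ) : ℂ) := by
            conv_lhs => rw [ea, ew]
            push_cast
            rfl
          rw [this, Complex.ofReal_im]
        unfold UU
        rw [hu_ofReal (hlog _ hi hs)]
        have : ((Complex.log (a ^ 2 + w⁻¹)).re : ℂ) / 2 =
            (((Complex.log (a ^ 2 + w⁻¹)).re / 2 : ℝ) : ℂ) := by
          push_cast
          rfl
        rw [this, ← Complex.ofReal_exp, Complex.ofReal_im]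
      refine ⟨fun _ => r1, fun _ => r2, fun _ => ?_⟩
      have r3 : (hh a (UU a w)).im = 0 := rh _ (by
        rw [Metric.mem_ball, dist_eq_norm]
        exact h4) r2
      unfold psi
      rw [Complex.add_im, Complex.mul_im, r3, r2, hwi]
      ring

end Pool.Agent.H64.SWL
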