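import Pool.Agent.H31.SW.TargetsA
import Pool.Agent.H87.HK.YC
import Pool.Agent.H41.HK.JA

/-!
# (WL) the lower bound for the Mellin transform
-/

set_option autoImplicit false

open NumberField NumberField.InfinitePlace NumberField.Units
  NumberField.Units.dirichletUnitTheorem MeasureTheory Set Filter Complex
open scoped nonZeroDivisors ENNReal

namespace Pool.Agent.H64.SWL

open Pool.Agent.H25.HK Pool.Agent.H23.LB Pool.Agent.H23.LC Pool.Agent.H31.SW
open Pool.Agent.H29.DW (dg Rl aq wv Pos cpar om zs rv)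

/-! ### The local integrals -/

/-- the local integrand -/
private noncomputable def lin (c : ℂ) (r : Bool) (k : ℤ) (y θ : ℝ) : ℂ :=
  aq r θ ^ (-k) * GG (pz r) c (((Real.exp (y / 2) : ℝ) : ℂ) * aq r θ)

/-- the local integrand without phases -/
private noncomputable def bin (r : Bool) (y θ : ℝ) : ℝ :=
  bz (((Real.exp (y / 2) : ℝ) : ℂ) * aq r θ - 1)

private lemma norm_aq (r : Bool) (θ : ℝ) : ‖aq r θ‖ = 1 := by
  unfold aq
  cases r with
  | true =>
    by_cases h : θ < Real.pi
    · simp [h]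
    · simp [h]
  | false => simp [Complex.norm_exp_ofReal_mul_I]

private lemma lin_eq (r : Bool) (k : ℤ) (s y θ : ℝ) :
    cexp ((dg r * s * y / 2 : ℝ) * I) *
      lin (if r then ((s : ℝ) : ℂ) else ((2 * s : ℝ) : ℂ) + (k : ℂ) * I) r k y θ =
      ((bin r y θ : ℝ) : ℂ) := by
  unfold lin bin GG pz
  cases r with
  | true =>
    simp only [if_true]
    by_cases hθ : θ < Real.pi
    · have h1 : aq true θ = 1 := by
        unfold aq
        simp [hθ]
      rw [h1, one_zpow, one_mul, mul_one]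
      have h2 : Complex.log ((Real.exp (y / 2) : ℝ) : ℂ) = ((y / 2 : ℝ) : ℂ) := by
        rw [← Complex.ofReal_log (Real.exp_pos _).le, Real.log_exp]
      rw [h2]
      have h3 : EE ((s : ℂ) * ((y / 2 : ℝ) : ℂ)) = cexp (-((s * (y / 2) : ℝ) : ℂ) * I) := by
        unfold EE
        rw [← Complex.ofReal_mul, Complex.ofReal_re]
      rw [h3, ← mul_assoc, ← Complex.exp_add]
      have h4 : ((dg true * s * y / 2 : ℝ) : ℂ) * I + -((s * (y / 2) : ℝ) : ℂ) * I = 0 := by
        have : (dg true : ℝ) = 1 := by simp [dg]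
        rw [this]
        push_cast
        ring
      rw [h4, Complex.exp_zero, one_mul]
    · have h1 : aq true θ = -1 := by
        unfold aq
        simp [hθ]
      rw [h1]
      have h2 : bz (((Real.exp (y / 2) : ℝ) : ℂ) * -1 - 1) = 0 := by
        apply ContDiffBump.zero_of_le_dist
        rw [dist_zero_right]
        have h3 : ((Real.exp (y / 2) : ℝ) : ℂ) * -1 - 1 = -((Real.exp (y / 2) + 1 : ℝ) : ℂ) := by
          push_cast
          ring
        rw [h3, norm_neg, Complex.norm_real, Real.norm_of_nonneg (by positivity)]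
        have h4 : (bz : ContDiffBump (0 : ℂ)).rOut = 1 / 10000 := rfl
        rw [h4]
        have := Real.exp_pos (y / 2)
        linarith
      rw [h2]
      simp
  | false =>
    simp only [Bool.false_eq_true, if_false]
    have h1 : aq false θ = cexp (θ * I) := by
      unfold aq
      simp
    have hw0 : ((Real.exp (y / 2) : ℝ) : ℂ) * aq false θ ≠ 0 := by
      rw [h1]
      exact mul_ne_zero (by exact_mod_cast (Real.exp_pos _).ne') (Complex.exp_ne_zero _)
    obtain ⟨w, hw⟩ : ∃ w, w = ((Real.exp (y / 2) : ℝ) : ℂ) * aq false θ := ⟨_, rfl⟩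
    rw [← hw] at hw0 ⊢
    have hnw : ‖w‖ = Real.exp (y / 2) := by
      rw [hw, norm_mul, norm_aq, mul_one, Complex.norm_real,
        Real.norm_of_nonneg (Real.exp_pos _).le]
    have hre : (Complex.log w).re = y / 2 := by
      rw [Complex.log_re, hnw, Real.log_exp]
    have him : cexp (((Complex.log w).im : ℂ) * I) = aq false θ := by
      have h2 : Complex.log w = ((y / 2 : ℝ) : ℂ) + ((Complex.log w).im : ℂ) * I := by
        conv_lhs => rw [← Complex.re_add_im (Complex.log w), hre]
      have h3 : w = ((Real.exp (y / 2) : ℝ) : ℂ) * cexp (((Complex.log w).im : ℂ) * I) := by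
        conv_lhs => rw [← Complex.exp_log hw0, h2, Complex.exp_add]
        rw [Complex.ofReal_exp]
      have h4 : ((Real.exp (y / 2) : ℝ) : ℂ) ≠ 0 := by exact_mod_cast (Real.exp_pos _).ne'
      apply mul_left_cancel₀ h4
      rw [← h3, hw]
    have hE : EE ((((2 * s : ℝ) : ℂ) + (k : ℂ) * I) * Complex.log w) =
        cexp (-((s * y : ℝ) : ℂ) * I) * aq false θ ^ k := by
      unfold EE
      have h5 : ((((2 * s : ℝ) : ℂ) + (k : ℂ) * I) * Complex.log w).re =
          s * y - k * (Complex.log w).im := by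
        rw [Complex.mul_re]
        have e1 : (((2 * s : ℝ) : ℂ) + (k : ℂ) * I).re = 2 * s := by
          simp
        have e2 : (((2 * s : ℝ) : ℂ) + (k : ℂ) * I).im = k := by
          simp
        rw [e1, e2, hre]
        ring
      rw [h5, ← him, ← Complex.exp_int_mul, ← Complex.exp_add]
      congr 1
      push_cast
      ring
    rw [hE]
    have haq0 : aq false θ ≠ 0 := by
      rw [h1]
      exact Complex.exp_ne_zero _
    have h6 : cexp ((dg false * s * y / 2 : ℝ) * I) * cexp (-((s * y : ℝ) : ℂ) * I) = 1 := by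
      rw [← Complex.exp_add]
      have : ((dg false * s * y / 2 : ℝ) : ℂ) * I + -((s * y : ℝ) : ℂ) * I = 0 := by
        have : (dg false : ℝ) = 2 := by simp [dg]
        rw [this]
        push_cast
        ring
      rw [this, Complex.exp_zero]
    have h7 : aq false θ ^ (-k) * aq false θ ^ k = 1 := by
      rw [← zpow_add₀ haq0, neg_add_cancel, zpow_zero]
    calc cexp ((dg false * s * y / 2 : ℝ) * I) * (aq false θ ^ (-k) *
          (cexp (-((s * y : ℝ) : ℂ) * I) * aq false θ ^ k * ((bz (w - 1) : ℝ) : ℂ)))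
        = (cexp ((dg false * s * y / 2 : ℝ) * I) * cexp (-((s * y : ℝ) : ℂ) * I)) *
          (aq false θ ^ (-k) * aq false θ ^ k) * ((bz (w - 1) : ℝ) : ℂ) := by ring
      _ = ((bz (w - 1) : ℝ) : ℂ) := by rw [h6, h7, one_mul, one_mul]

private lemma meas_aq (r : Bool) : Measurable (aq r) := by
  unfold aq
  cases r with
  | true =>
    simp only [if_true]
    exact Measurable.ite measurableSet_Iio measurable_const measurable_const
  | false =>
    simp only [Bool.false_eq_true, if_false]
    fun_prop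

private lemma meas_bin (r : Bool) : Measurable (fun p : ℝ × ℝ => bin r p.1 p.2) := by
  unfold bin
  have h1 : Measurable (fun x : ℂ => bz x) := (bz.continuous).measurable
  refine h1.comp ?_
  refine Measurable.sub_const (Measurable.mul ?_ ((meas_aq r).comp measurable_snd)) 1
  fun_prop

private lemma bin_nonneg (r : Bool) (y θ : ℝ) : 0 ≤ bin r y θ := bz.nonneg

private lemma bin_le (r : Bool) (y θ : ℝ) : bin r y θ ≤ 1 := bz.le_one

private lemma bin_supp (r : Bool) (y θ : ℝ) (h : 1 < |y|) : bin r y θ = 0 := by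
  unfold bin
  apply ContDiffBump.zero_of_le_dist
  rw [dist_zero_right]
  have h4 : (bz : ContDiffBump (0 : ℂ)).rOut = 1 / 10000 := rfl
  rw [h4]
  have h5 : |Real.exp (y / 2) - 1| ≤ ‖((Real.exp (y / 2) : ℝ) : ℂ) * aq r θ - 1‖ := by
    have h6 := abs_norm_sub_norm_le (((Real.exp (y / 2) : ℝ) : ℂ) * aq r θ) 1
    rw [norm_mul, norm_aq, mul_one, Complex.norm_real,
        Real.norm_of_nonneg (Real.exp_pos _).le, norm_one] at h6
    exact h6
  refine le_trans ?_ h5
  rcases lt_or_ge y 0 with hy | hy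
  · rw [abs_of_neg hy] at h
    have h7 : Real.exp (y / 2) ≤ Real.exp (-(1 / 2)) := Real.exp_le_exp.2 (by linarith)
    have h8 : Real.exp (-(1 / 2) : ℝ) * (1 + 1 / 2) ≤ 1 := by
      have h9 : (1 / 2 : ℝ) + 1 ≤ Real.exp (1 / 2) := Real.add_one_le_exp _
      have h10 : Real.exp (-(1 / 2) : ℝ) * Real.exp (1 / 2) = 1 := by
        rw [← Real.exp_add]
        simp
      have h11 := Real.exp_pos (-(1 / 2) : ℝ)
      nlinarith
    rw [abs_of_nonpos (by linarith)]
    linarith
  · rw [abs_of_nonneg hy] at h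
    have h7 : (y / 2) + 1 ≤ Real.exp (y / 2) := Real.add_one_le_exp _
    rw [abs_of_nonneg (by linarith)]
    linarith

private lemma bin_one (r : Bool) (y θ : ℝ) (hy : |y| ≤ 1 / 100000) (h0 : 0 ≤ θ)
    (hθ : θ ≤ 1 / 100000) : bin r y θ = 1 := by
  unfold bin
  apply ContDiffBump.one_of_mem_closedBall
  rw [Metric.mem_closedBall, dist_zero_right]
  have h4 : (bz : ContDiffBump (0 : ℂ)).rIn = 1 / 20000 := rfl
  rw [h4]
  have h5 : ‖aq r θ - 1‖ ≤ 1 / 100000 := by
    unfold aq
    cases r with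
    | true =>
      have h6 : θ < Real.pi := by
        have := Real.pi_gt_three
        linarith
      simp only [if_true, h6, sub_self, norm_zero]
      norm_num
    | false =>
      simp only [Bool.false_eq_true, if_false]
      have h6 := Real.norm_exp_I_mul_ofReal_sub_one_le (x := θ)
      rw [mul_comm] at h6
      refine h6.trans ?_
      rw [Real.norm_of_nonneg h0]
      exact hθ
  have h6 : |Real.exp (y / 2) - 1| ≤ 1 / 100000 := by
    have h7 : |y / 2| ≤ 1 := by
      rw [abs_div, abs_two]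
      linarith
    have h8 := Real.abs_exp_sub_one_le h7
    rw [abs_div, abs_two] at h8
    linarith
  have h7 : ((Real.exp (y / 2) : ℝ) : ℂ) * aq r θ - 1 =
      ((Real.exp (y / 2) - 1 : ℝ) : ℂ) * aq r θ + (aq r θ - 1) := by
    push_cast
    ring
  rw [h7]
  refine (norm_add_le _ _).trans ?_
  rw [norm_mul, norm_aq, mul_one, Complex.norm_real, Real.norm_eq_abs]
  linarith

private lemma bin_int (r : Bool) (y : ℝ) :
    Integrable (fun θ => bin r y θ) (volume.restrict (Icc (0 : ℝ) (2 * Real.pi))) := by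
  refine Measure.integrableOn_of_bounded (M := 1) ?_ ?_ ?_
  · rw [Real.volume_Icc]
    exact ENNReal.ofReal_ne_top
  · exact ((meas_bin r).comp (measurable_const.prodMk measurable_id)).aestronglyMeasurable
  · refine Filter.Eventually.of_forall fun θ => ?_
    rw [Real.norm_of_nonneg (bin_nonneg r y θ)]
    exact bin_le r y θ

/-- the local integral without phases -/
private noncomputable def fin (r : Bool) (y : ℝ) : ℝ :=
  ∫ θ in Icc (0 : ℝ) (2 * Real.pi), bin r y θ

private lemma fin_nonneg (r : Bool) (y : ℝ) : 0 ≤ fin r y :=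
  integral_nonneg fun θ => bin_nonneg r y θ

private lemma fin_le (r : Bool) (y : ℝ) : fin r y ≤ 2 * Real.pi := by
  have h1 : fin r y ≤ ∫ _ in Icc (0 : ℝ) (2 * Real.pi), (1 : ℝ) := by
    refine integral_mono (bin_int r y) ?_ fun θ => bin_le r y θ
    exact integrable_const _
  refine h1.trans ?_
  rw [integral_const, smul_eq_mul, mul_one]
  simp [Real.pi_pos.le]

private lemma fin_int (r : Bool) : Integrable (fin r) := by
  have hm : StronglyMeasurable (fin r) := by
    have h1 : StronglyMeasurable (fun p : ℝ × ℝ => bin r p.1 p.2) :=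
      (meas_bin r).stronglyMeasurable
    exact h1.integral_prod_right'
  have h2 : IntegrableOn (fin r) (Icc (-1) 1) := by
    refine Measure.integrableOn_of_bounded (M := 2 * Real.pi) ?_ hm.aestronglyMeasurable ?_
    · rw [Real.volume_Icc]
      exact ENNReal.ofReal_ne_top
    · refine Filter.Eventually.of_forall fun y => ?_
      rw [Real.norm_of_nonneg (fin_nonneg r y)]
      exact fin_le r y
  refine (integrableOn_iff_integrable_of_support_subset ?_).1 h2
  intro y hy
  by_contra hcon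
  apply hy
  have h3 : 1 < |y| := by
    by_contra h4
    push Not at h4
    exact hcon (abs_le.1 h4)
  unfold fin
  simp only [bin_supp r y _ h3, integral_zero]

private lemma fin_low (r : Bool) : (1 / 100000 : ℝ) * (1 / 100000) ≤ ∫ y, fin r y := by
  have h1 : ∀ y ∈ Icc (0 : ℝ) (1 / 100000), (1 / 100000 : ℝ) ≤ fin r y := by
    intro y hy
    have hy' : |y| ≤ 1 / 100000 := by
      rw [abs_of_nonneg hy.1]
      exact hy.2
    have h2 : ∫ θ in Icc (0 : ℝ) (1 / 100000), bin r y θ ≤ fin r y := by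
      refine setIntegral_mono_set (bin_int r y) ?_ ?_
      · exact Filter.Eventually.of_forall fun θ => bin_nonneg r y θ
      · refine Filter.Eventually.of_forall fun θ hθ => ⟨hθ.1, hθ.2.trans ?_⟩
        have := Real.pi_gt_three
        linarith
    refine le_trans (le_of_eq ?_) h2
    have h3 : ∫ θ in Icc (0 : ℝ) (1 / 100000), bin r y θ =
        ∫ _ in Icc (0 : ℝ) (1 / 100000), (1 : ℝ) :=
      setIntegral_congr_fun measurableSet_Icc fun θ hθ => bin_one r y θ hy' hθ.1 hθ.2
    rw [h3, integral_const, smul_eq_mul, mul_one]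
    simp
  have h2 : ∫ y in Icc (0 : ℝ) (1 / 100000), fin r y ≤ ∫ y, fin r y :=
    setIntegral_le_integral (fin_int r) (Filter.Eventually.of_forall fun y => fin_nonneg r y)
  refine le_trans ?_ h2
  have h3 : ∫ _ in Icc (0 : ℝ) (1 / 100000), (1 / 100000 : ℝ) ≤
      ∫ y in Icc (0 : ℝ) (1 / 100000), fin r y :=
    setIntegral_mono_on (integrable_const _) (fin_int r).integrableOn measurableSet_Icc h1
  refine le_trans (le_of_eq ?_) h3
  rw [integral_const, smul_eq_mul]
  simp

private lemma loc_main (r : Bool) (k : ℤ) (s : ℝ) (c : ℂ)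
    (hc : c = if r then ((s : ℝ) : ℂ) else ((2 * s : ℝ) : ℂ) + (k : ℂ) * I) :
    Integrable (fun y : ℝ => cexp ((dg r * s * y / 2 : ℝ) * I) *
        ∫ θ in Icc (0 : ℝ) (2 * Real.pi), lin c r k y θ) ∧
      (1 / 100000 : ℝ) * (1 / 100000) ≤ ‖∫ y : ℝ, cexp ((dg r * s * y / 2 : ℝ) * I) *
        ∫ θ in Icc (0 : ℝ) (2 * Real.pi), lin c r k y θ‖ := by
  have h1 : (fun y : ℝ => cexp ((dg r * s * y / 2 : ℝ) * I) *
        ∫ θ in Icc (0 : ℝ) (2 * Real.pi), lin c r k y θ) = fun y => ((fin r y : ℝ) : ℂ) := by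
    funext y
    rw [← integral_const_mul]
    unfold fin
    rw [← integral_complex_ofReal]
    congr 1
    funext θ
    rw [hc, lin_eq]
  rw [h1]
  refine ⟨(fin_int r).ofReal, ?_⟩
  rw [integral_complex_ofReal, Complex.norm_real,
    Real.norm_of_nonneg (integral_nonneg fun y => fin_nonneg r y)]
  exact fin_low r

section

variable {K : Type} [Field K] [NumberField K]

omit [NumberField K] in
private lemma an_eq_aq (v : InfinitePlace K) (θ : ℝ) : an v θ = aq (rv v) θ := by
  classical
  unfold an aq rv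
  by_cases h : v.IsReal
  · simp [h]
  · simp [h]

omit [NumberField K] in
private lemma mult_eq_dg (v : InfinitePlace K) : v.mult = dg (rv v) := by
  classical
  unfold dg rv mult
  by_cases h : v.IsReal
  · simp [h]
  · simp [h]

omit [NumberField K] in
private lemma cpar_eq (k : InfinitePlace K → ℤ) (ν : InfinitePlace K → ℝ) (t : ℝ)
    (v : InfinitePlace K) :
    cpar k ν t v = if rv v then ((t - ν v : ℝ) : ℂ) else
      ((2 * (t - ν v) : ℝ) : ℂ) + (k v : ℂ) * I := by
  classical
  unfold cpar rv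
  by_cases h : v.IsReal
  · simp [h]
  · simp [h]

/-- the integral over the angles is a product -/
private lemma inner_eq (cp : InfinitePlace K → ℂ) (k : InfinitePlace K → ℤ)
    (y : InfinitePlace K → ℝ) :
    ∫ θ in An K, ek k θ * pF (fun v => GG (pz (rv v)) (cp v)) y (om true θ) (1 : K) =
      ∏ v, ∫ θ in Icc (0 : ℝ) (2 * Real.pi), lin (cp v) (rv v) (k v) (y v) θ := by
  have h1 : ∀ θ : InfinitePlace K → ℝ,
      ek k θ * pF (fun v => GG (pz (rv v)) (cp v)) y (om true θ) (1 : K) =
      ∏ v, lin (cp v) (rv v) (k v) (y v) (θ v) := by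
    intro θ
    unfold ek pF
    rw [← Finset.prod_mul_distrib]
    refine Finset.prod_congr rfl fun v _ => ?_
    have h2 : wv v (1 : K) y (om true θ) =
        ((Real.exp (y v / 2) : ℝ) : ℂ) * aq (rv v) (θ v) := by
      unfold wv om
      rw [map_one, one_mul, if_pos rfl, an_eq_aq]
    rw [h2, an_eq_aq]
    rfl
  simp only [h1]
  have h3 : (volume : Measure (InfinitePlace K → ℝ)).restrict (An K) =
      Measure.pi fun _ => (volume : Measure ℝ).restrict (Icc (0 : ℝ) (2 * Real.pi)) := by
    unfold An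
    rw [volume_pi, Measure.restrict_pi_pi]
  rw [h3, integral_fintype_prod_eq_prod]

/-- the integrand as a product -/
private lemma integrand_eq (hPU : T_PU) (k : InfinitePlace K → ℤ) (ν : InfinitePlace K → ℝ)
    (t : ℝ) (hν : ∑ v, (v.mult : ℝ) * ν v = 0) (cp : InfinitePlace K → ℂ)
    (τ : ℝ) (z : logSpace K) :
    ec K ν z * cexp (t * τ * I) * ∫ θ in An K, ek k θ *
        pF (fun v => GG (pz (rv v)) (cp v)) (yc K τ z) (om true θ) (1 : K) =
      ∏ v, (cexp ((dg (rv v) * (t - ν v) * yc K τ z v / 2 : ℝ) * I) *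
        ∫ θ in Icc (0 : ℝ) (2 * Real.pi), lin (cp v) (rv v) (k v) (yc K τ z v) θ) := by
  rw [inner_eq, Finset.prod_mul_distrib]
  congr 1
  obtain ⟨hsum, -⟩ := Pool.Agent.H87.HK.yc_main K
  obtain ⟨-, hpr, -⟩ := hPU K
  unfold ec
  rw [hpr ν hν τ z, ← Complex.exp_add, ← Complex.exp_sum]
  congr 1
  have h1 : τ = (∑ v, (v.mult : ℝ) * yc K τ z v) / 2 := by
    rw [hsum]
    ring
  have h2 : (-(∑ v, (v.mult : ℝ) * ν v * yc K τ z v) / 2 + t * τ : ℝ) =
      ∑ v, (dg (rv v) * (t - ν v) * yc K τ z v / 2 : ℝ) := by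
    have h3 : (-(∑ v, (v.mult : ℝ) * ν v * yc K τ z v) / 2 + t * τ : ℝ) =
        -(∑ v, (v.mult : ℝ) * ν v * yc K τ z v) / 2 +
          t * ((∑ v, (v.mult : ℝ) * yc K τ z v) / 2) := by rw [← h1]
    rw [h3, ← Finset.sum_neg_distrib, Finset.sum_div, Finset.sum_div, Finset.mul_sum,
      ← Finset.sum_add_distrib]
    refine Finset.sum_congr rfl fun v _ => ?_
    rw [← mult_eq_dg]
    ring
  rw [← Finset.sum_mul, ← Complex.ofReal_sum, ← h2]
  push_cast
  ring

end

/-- (WL) the lower bound for the Mellin transform. -/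
theorem pf_WL (hPU : T_PU) (_hVL : U_VL) : W_WL := by
  classical
  intro n hn
  obtain ⟨c₀, hc₀d⟩ : ∃ c₀ : ℝ, c₀ = (1 / 100000 : ℝ) * (1 / 100000) := ⟨_, rfl⟩
  have hc₀ : 0 < c₀ := by
    rw [hc₀d]
    norm_num
  refine ⟨(2 ^ n)⁻¹ * (min c₀ 1) ^ n, by positivity, ?_⟩
  intro K _ _ hK k ν t hν
  have hml' : ∀ v : InfinitePlace K,
      Integrable (fun y : ℝ => cexp ((dg (rv v) * (t - ν v) * y / 2 : ℝ) * I) *
        ∫ θ in Icc (0 : ℝ) (2 * Real.pi),
          lin (cpar k ν t v) (rv v) (k v) y θ) ∧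
      c₀ ≤ ‖∫ y : ℝ, cexp ((dg (rv v) * (t - ν v) * y / 2 : ℝ) * I) *
        ∫ θ in Icc (0 : ℝ) (2 * Real.pi),
          lin (cpar k ν t v) (rv v) (k v) y θ‖ := by
    intro v
    rw [hc₀d]
    exact loc_main (rv v) (k v) (t - ν v) _ (cpar_eq k ν t v)
  have hg := (Integrable.fintype_prod_dep (μ := fun _ : InfinitePlace K => (volume : Measure ℝ))
    fun v => (hml' v).1)
  rw [← volume_pi] at hg
  have hja := (Pool.Agent.H41.HK.ja K _ hg).2
  have hWH : WG K (fun v => GG (pz (rv v)) (cpar k ν t v)) k ν t =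
      ∫ p : ℝ × logSpace K, ∏ v, (cexp ((dg (rv v) * (t - ν v) * yc K p.1 p.2 v / 2 : ℝ) * I) *
        ∫ θ in Icc (0 : ℝ) (2 * Real.pi),
          lin (cpar k ν t v) (rv v) (k v) (yc K p.1 p.2 v) θ) := by
    unfold WG
    simp only [integrand_eq hPU k ν t hν]
    exact (integral_prod_swap (μ := (volume : Measure (logSpace K))) (ν := (volume : Measure ℝ))
      (fun u : logSpace K × ℝ => ∏ v, (cexp ((dg (rv v) * (t - ν v) * yc K u.2 u.1 v / 2 : ℝ) * I) *
        ∫ θ in Icc (0 : ℝ) (2 * Real.pi),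
          lin (cpar k ν t v) (rv v) (k v) (yc K u.2 u.1 v) θ))).symm
  have hpr := integral_fintype_prod_volume_eq_prod
    (fun (v : InfinitePlace K) (y : ℝ) => cexp ((dg (rv v) * (t - ν v) * y / 2 : ℝ) * I) *
        ∫ θ in Icc (0 : ℝ) (2 * Real.pi),
          lin (cpar k ν t v) (rv v) (k v) y θ)
  rw [hWH, hja, hpr, norm_mul, norm_prod, norm_inv, norm_pow]
  have hcard : (Finset.univ : Finset (InfinitePlace K)).card ≤ n := by
    rw [← hK, ← sum_mult_eq (K := K), Finset.card_eq_sum_ones]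
    exact Finset.sum_le_sum fun v _ => Nat.succ_le_of_lt mult_pos
  have hr1 : nrRealPlaces K ≤ n := by
    refine le_trans ?_ hcard
    unfold nrRealPlaces
    exact Fintype.card_subtype_le _
  have h2 : ‖(2 : ℂ)‖ = 2 := by simp
  rw [h2]
  have h3 : ((2 : ℝ) ^ n)⁻¹ ≤ (2 ^ nrRealPlaces K)⁻¹ := by
    apply inv_anti₀ (by positivity)
    exact pow_le_pow_right₀ (by norm_num) hr1
  have hmin : (0 : ℝ) < min c₀ 1 := lt_min hc₀ one_pos
  have h4 : (min c₀ 1) ^ n ≤ ∏ _v : InfinitePlace K, c₀ := by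
    rw [Finset.prod_const]
    calc (min c₀ 1) ^ n ≤ (min c₀ 1) ^ (Finset.univ : Finset (InfinitePlace K)).card :=
          pow_le_pow_of_le_one hmin.le (min_le_right _ _) hcard
      _ ≤ c₀ ^ (Finset.univ : Finset (InfinitePlace K)).card :=
          pow_le_pow_left₀ hmin.le (min_le_left _ _) _
  have h6 : ∏ _v : InfinitePlace K, c₀ ≤
      ∏ v : InfinitePlace K, ‖∫ y : ℝ, cexp ((dg (rv v) * (t - ν v) * y / 2 : ℝ) * I) *
        ∫ θ in Icc (0 : ℝ) (2 * Real.pi),
          lin (cpar k ν t v) (rv v) (k v) y θ‖ :=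
    Finset.prod_le_prod (fun v _ => hc₀.le) fun v _ => (hml' v).2
  exact mul_le_mul h3 (h4.trans h6) (by positivity) (by positivity)

end Pool.Agent.H64.SWL
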